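import Pool.Agent.Helper88.PhiN
import Pool.Agent.Helper64.PhiLev2

/-! Order 2 of the even part and order 3 of the odd part: explicit profiles. -/

set_option autoImplicit false

namespace Phi4

open Real Filter MeasureTheory intervalIntegral Set

/-- profile of the even part at rate `2 lam` (for amplitude 1) -/
noncomputable def E2 (T : ℝ) (n m : ℕ) (t : ℝ) : ℝ :=
  -((4 * (n:ℝ) ^ 2 - (m:ℝ) ^ 2) / (4 * (m:ℝ) ^ 2)) - cos (2 * om T n * t) / 4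
    + (n:ℝ) ^ 2 / (m:ℝ) ^ 2 * cos (om T m * t)

/-- source of the odd part at rate `3 lam` (for amplitude 1) -/
noncomputable def A3 (T : ℝ) (n m : ℕ) (t : ℝ) : ℝ :=
  sin (om T n * t) * (6 * E2 T n m t + sin (om T n * t) ^ 2)

/-- profile of the odd part at rate `3 lam` (for amplitude 1) -/
noncomputable def O3 (T : ℝ) (n m : ℕ) (t : ℝ) : ℝ :=
  3 * ((m:ℝ) ^ 2 - 2 * (n:ℝ) ^ 2) * (4 * (n:ℝ) ^ 2 - (m:ℝ) ^ 2) /
      (16 * (m:ℝ) ^ 2 * ((n:ℝ) ^ 2 - (m:ℝ) ^ 2)) * sin (om T n * t)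
    - 1 / 16 * sin (3 * om T n * t)
    + 3 * (n:ℝ) ^ 2 * (2 * n + m) / (2 * (m:ℝ) ^ 2 * (4 * n + 5 * m)) *
      sin ((om T n + om T m) * t)
    + 3 * (n:ℝ) ^ 2 * (2 * n - m) / (2 * (m:ℝ) ^ 2 * (4 * n - 5 * m)) *
      sin ((om T n - om T m) * t)

/-- source of the even part at rate `4 lam` (for amplitude 1), pairs of free modes excluded -/
noncomputable def F4 (T : ℝ) (n m : ℕ) (t : ℝ) : ℝ :=
  6 * (sin (om T n * t) * O3 T n m t) + 3 * (sin (om T n * t) ^ 2 * E2 T n m t)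
    + 3 * E2 T n m t ^ 2

namespace h64

theorem om_eq (T : ℝ) (n : ℕ) : om T n = (n : ℝ) * (2 * π / T) := rfl

theorem hN {T lam : ℝ} {n m : ℕ} (h1 : lam ^ 2 = 2 - om T n ^ 2) (h2 : 4 * lam ^ 2 = 2 - om T m ^ 2) :
    (2 * π / T) ^ 2 * (4 * (n : ℝ) ^ 2 - (m : ℝ) ^ 2) = 6 := by
  rw [om_eq] at h1 h2
  linear_combination 4 * h1 - h2

theorem hl {T lam : ℝ} {n : ℕ} (h1 : lam ^ 2 = 2 - om T n ^ 2) :
    lam ^ 2 = 2 - (n : ℝ) ^ 2 * (2 * π / T) ^ 2 := by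
  rw [om_eq] at h1
  linear_combination h1

theorem E2_E2f (T : ℝ) (n m : ℕ) (t : ℝ) : E2 T n m t = E2f 1 n m (2 * π / T) t := by
  unfold E2 E2f
  have e1 : 2 * om T n * t = 2 * (n : ℝ) * (2 * π / T) * t := by rw [om_eq]; ring
  rw [e1, om_eq T m]
  ring

theorem O3_O3f (T : ℝ) (n m : ℕ) (t : ℝ) : O3 T n m t = O3f 1 n m (2 * π / T) t := by
  unfold O3 O3f U3 V3
  have e1 : 3 * om T n * t = 3 * (n : ℝ) * (2 * π / T) * t := by rw [om_eq]; ring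
  have e2 : (om T n + om T m) * t = ((n : ℝ) + m) * (2 * π / T) * t := by rw [om_eq, om_eq]; ring
  have e3 : (om T n - om T m) * t = ((n : ℝ) - m) * (2 * π / T) * t := by rw [om_eq, om_eq]; ring
  rw [e1, e2, e3, om_eq T n]
  ring

end h64

theorem O3_ode {T lam : ℝ} {n m : ℕ} (hT : 0 < T) (hm : 1 ≤ m) (hmn : m < n)
    (h1 : lam ^ 2 = 2 - om T n ^ 2) (h2 : 4 * lam ^ 2 = 2 - om T m ^ 2)
    (h45 : 4 * (n:ℝ) ≠ 5 * m) :
    ∃ O' : ℝ → ℝ, (∀ t, HasDerivAt (O3 T n m) (O' t) t) ∧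
      ∀ t, HasDerivAt O' (((3 * lam) ^ 2 - 2) * O3 T n m t - A3 T n m t) t := by
  have hm0 : (0 : ℝ) < m := by exact_mod_cast hm
  have hmn0 : (m : ℝ) < n := by exact_mod_cast hmn
  have e : O3 T n m = O3f 1 n m (2 * π / T) := funext fun t => h64.O3_O3f T n m t
  refine ⟨O3f1 1 n m (2 * π / T), ?_, ?_⟩
  · intro t
    rw [e]
    exact hasDerivAt_O3f 1 n m _ t
  · intro t
    refine (hasDerivAt_O3f1 1 hm0 hmn0 (h64.hN h1 h2) (h64.hl h1) h45 t).congr_deriv ?_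
    rw [e]
    unfold A3
    rw [h64.E2_E2f, ← h64.om_eq]
    ring

theorem O3_refl {T : ℝ} {n m : ℕ} (hT : 0 < T) (t : ℝ) : O3 T n m (T - t) = -O3 T n m t := by
  have key : ∀ a : ℝ, sin (a * T) = 0 → cos (a * T) = 1 → sin (a * (T - t)) = -sin (a * t) := by
    intro a h1 h2
    rw [mul_sub, sin_sub, h1, h2]; ring
  have s1 := sin_om_T hT n
  have c1 := cos_om_T hT n
  have s2 := sin_om_T hT m
  have c2 := cos_om_T hT m
  have k1 := key (om T n) s1 c1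
  have k2 := key (3 * om T n) (by rw [mul_assoc, sin_three_mul, s1]; ring)
    (by rw [mul_assoc, cos_three_mul, c1]; ring)
  have k3 := key (om T n + om T m) (by rw [add_mul, sin_add, s1, s2]; ring)
    (by rw [add_mul, cos_add, s1, s2, c1, c2]; ring)
  have k4 := key (om T n - om T m) (by rw [sub_mul, sin_sub, s1, s2]; ring)
    (by rw [sub_mul, cos_sub, s1, s2, c1, c2]; ring)
  unfold O3
  rw [k1, k2, k3, k4]
  ring

end Phi4
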