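import Pool.Agent.Helper58.Phi4.Ode
import Pool.Agent.Helper64.Phi4.Prof
import Pool.Agent.Helper64.PhiLev3

/-! Evaluation of the quartic term at rate `4 lam`. -/

set_option autoImplicit false

namespace Phi4

open Real Filter MeasureTheory intervalIntegral Set

namespace h64

theorem F4_cosP (T : ℝ) {n m : ℕ} (hm : 1 ≤ m) (t : ℝ) :
    F4 T n m t = cosP Finset.univ (a4 (n : ℝ) m) (fun i => f4 (n : ℝ) m i * (2 * π / T)) t := by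
  have hm0 : (m : ℝ) ≠ 0 := by
    have : (0 : ℝ) < m := by exact_mod_cast hm
    exact this.ne'
  have h := level4_source 1 (n : ℝ) (m : ℝ) (2 * π / T) t hm0
  have e : (fun i => (1 : ℝ) ^ 4 * a4 (n : ℝ) m i) = a4 (n : ℝ) m := by
    funext i; ring
  rw [e] at h
  rw [← h]
  unfold F4
  rw [E2_E2f, O3_O3f, ← om_eq]
  ring

/-- the sum of the level 4 coefficients is not zero -/
theorem level4_sum_ne {n m : ℕ} (hm : 1 ≤ m) (hmn : m < n) {lam ω : ℝ}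
    (hN : ω ^ 2 * (4 * (n : ℝ) ^ 2 - (m : ℝ) ^ 2) = 6) (hl : lam ^ 2 = 2 - (n : ℝ) ^ 2 * ω ^ 2)
    (h5' : 4 * (n : ℝ) ≠ 5 * m) :
    (∀ i : Fin 7, (4 * lam) ^ 2 - 2 + (f4 (n : ℝ) m i * ω) ^ 2 ≠ 0) ∧
    ∑ i : Fin 7, a4 (n : ℝ) m i / ((4 * lam) ^ 2 - 2 + (f4 (n : ℝ) m i * ω) ^ 2) ≠ 0 := by
  have hm0 : (0 : ℝ) < m := by exact_mod_cast hm
  have hmn0 : (m : ℝ) < n := by exact_mod_cast hmn
  have hn0 : (0 : ℝ) < n := hm0.trans hmn0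
  have hN0 : 0 < 4 * (n : ℝ) ^ 2 - (m : ℝ) ^ 2 := by nlinarith
  have h4' := five_ne (n := n) hm
  set q := (4 * lam) ^ 2 - 2 with hq
  have hqN : q * (4 * (n : ℝ) ^ 2 - (m : ℝ) ^ 2) = 6 * (4 * (n : ℝ) ^ 2 - 5 * (m : ℝ) ^ 2) := by
    rw [hq]
    linear_combination 16 * (4 * (n : ℝ) ^ 2 - (m : ℝ) ^ 2) * hl - 16 * (n : ℝ) ^ 2 * hN
  have hqf : ∀ f : ℝ, q + (f * ω) ^ 2 = 6 * (4 * (n : ℝ) ^ 2 - 5 * (m : ℝ) ^ 2 + f ^ 2) /
      (4 * (n : ℝ) ^ 2 - (m : ℝ) ^ 2) := by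
    intro f
    rw [eq_div_iff hN0.ne']
    linear_combination hqN + f ^ 2 * hN
  constructor
  · intro i
    rw [hqf]
    apply div_ne_zero _ hN0.ne'
    apply mul_ne_zero (by norm_num)
    fin_cases i
    · simpa [f4] using h4'
    · have : 0 < 4 * (n : ℝ) ^ 2 - 5 * (m : ℝ) ^ 2 + (2 * (n : ℝ)) ^ 2 := by nlinarith
      simpa [f4] using this.ne'
    · have : 0 < 4 * (n : ℝ) ^ 2 - 5 * (m : ℝ) ^ 2 + (4 * (n : ℝ)) ^ 2 := by nlinarith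
      simpa [f4] using this.ne'
    · have : 0 < 4 * (n : ℝ) ^ 2 - 5 * (m : ℝ) ^ 2 + (m : ℝ) ^ 2 := by nlinarith
      simpa [f4] using this.ne'
    · have : 0 < 4 * (n : ℝ) ^ 2 - 5 * (m : ℝ) ^ 2 + (2 * (m : ℝ)) ^ 2 := by nlinarith
      simpa [f4] using this.ne'
    · have : 0 < 4 * (n : ℝ) ^ 2 - 5 * (m : ℝ) ^ 2 + (2 * (n : ℝ) + m) ^ 2 := by nlinarith
      simpa [f4] using this.ne'
    · have : 0 < 4 * (n : ℝ) ^ 2 - 5 * (m : ℝ) ^ 2 + (2 * (n : ℝ) - m) ^ 2 := by nlinarith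
      simpa [f4] using this.ne'
  · have hsum : ∑ i : Fin 7, a4 (n : ℝ) m i / (q + (f4 (n : ℝ) m i * ω) ^ 2) =
      ((4 * (n : ℝ) ^ 2 - (m : ℝ) ^ 2) / 6) *
        (-(15 / 4) * (n : ℝ) ^ 4 * (4 * (n : ℝ) ^ 2 - 13 * (m : ℝ) ^ 2) /
      (((2 * (n : ℝ) - m) * (2 * n + m)) * (((n : ℝ) - m) * (n + m)) * (4 * (n : ℝ) ^ 2 - 5 * (m : ℝ) ^ 2) *
        ((4 * (n : ℝ) - 5 * m) * (4 * n + 5 * m)))) := by
      rw [← level4_rational hm0 hmn0 h5' h4', Fin.sum_univ_seven]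
      have b0 : f4 (n : ℝ) m 0 = 0 := rfl
      have b1 : f4 (n : ℝ) m 1 = 2 * n := rfl
      have b2 : f4 (n : ℝ) m 2 = 4 * n := rfl
      have b3 : f4 (n : ℝ) m 3 = m := rfl
      have b4 : f4 (n : ℝ) m 4 = 2 * m := rfl
      have b5 : f4 (n : ℝ) m 5 = 2 * n + m := rfl
      have b6 : f4 (n : ℝ) m 6 = 2 * n - m := rfl
      rw [b0, b1, b2, b3, b4, b5, b6]
      simp only [hqf]
      have d0 : 4 * (n : ℝ) ^ 2 - 5 * (m : ℝ) ^ 2 + (0 : ℝ) ^ 2 = 4 * (n : ℝ) ^ 2 - 5 * (m : ℝ) ^ 2 := by ring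
      have d1 : 4 * (n : ℝ) ^ 2 - 5 * (m : ℝ) ^ 2 + (2 * (n : ℝ)) ^ 2 = 8 * (n : ℝ) ^ 2 - 5 * (m : ℝ) ^ 2 := by
        ring
      have d2 : 4 * (n : ℝ) ^ 2 - 5 * (m : ℝ) ^ 2 + (4 * (n : ℝ)) ^ 2 =
        5 * ((2 * (n : ℝ) - m) * (2 * n + m)) := by ring
      have d3 : 4 * (n : ℝ) ^ 2 - 5 * (m : ℝ) ^ 2 + (m : ℝ) ^ 2 = 4 * (((n : ℝ) - m) * (n + m)) := by ring
      have d4 : 4 * (n : ℝ) ^ 2 - 5 * (m : ℝ) ^ 2 + (2 * (m : ℝ)) ^ 2 = (2 * (n : ℝ) - m) * (2 * n + m) := by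
        ring
      have d5 : 4 * (n : ℝ) ^ 2 - 5 * (m : ℝ) ^ 2 + (2 * (n : ℝ) + m) ^ 2 =
        4 * ((2 * (n : ℝ) - m) * (n + m)) := by ring
      have d6 : 4 * (n : ℝ) ^ 2 - 5 * (m : ℝ) ^ 2 + (2 * (n : ℝ) - m) ^ 2 =
        4 * ((2 * (n : ℝ) + m) * (n - m)) := by ring
      rw [d0, d1, d2, d3, d4, d5, d6]
      have hh : ∀ a N D : ℝ, a / (6 * D / N) = (N / 6) * (a / D) := by
        intro a N D
        rw [div_div_eq_mul_div, mul_comm a N, mul_div_mul_comm]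
      simp only [hh]
      ring
    rw [hsum]
    have t1 : 2 * (n : ℝ) - m ≠ 0 := by
      have : 0 < 2 * (n : ℝ) - m := by linarith
      exact this.ne'
    have t2 : 2 * (n : ℝ) + m ≠ 0 := by positivity
    have t3 : (n : ℝ) - m ≠ 0 := (sub_pos.2 hmn0).ne'
    have t4 : (n : ℝ) + m ≠ 0 := by positivity
    have t5 : 4 * (n : ℝ) - 5 * m ≠ 0 := sub_ne_zero.2 h5'
    have t6 : 4 * (n : ℝ) + 5 * m ≠ 0 := by positivity
    have t7 := thirteen_ne (n := n) hm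
    refine mul_ne_zero (div_ne_zero hN0.ne' (by norm_num)) ?_
    refine div_ne_zero (mul_ne_zero (mul_ne_zero (by norm_num) (pow_ne_zero 4 hn0.ne')) t7) ?_
    exact mul_ne_zero (mul_ne_zero (mul_ne_zero (mul_ne_zero t1 t2) (mul_ne_zero t3 t4)) h4')
      (mul_ne_zero t5 t6)

theorem f4_int (n m : ℕ) (i : Fin 7) : ∃ z : ℤ, f4 (n : ℝ) m i = z := by
  fin_cases i
  · exact ⟨0, by simp [f4]⟩
  · exact ⟨2 * n, by simp [f4]⟩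
  · exact ⟨4 * n, by simp [f4]⟩
  · exact ⟨m, by simp [f4]⟩
  · exact ⟨2 * m, by simp [f4]⟩
  · exact ⟨2 * n + m, by simp [f4]⟩
  · exact ⟨2 * n - m, by simp [f4]⟩

/-- the value at `T` for a `T`-periodic cosine sum -/
theorem Ef_cosP {ι : Type} {c T : ℝ} (s : Finset ι) (a f : ι → ℝ) (hq : ∀ i ∈ s, c + f i ^ 2 ≠ 0)
    (hf : ∀ i ∈ s, cos (f i * T) = 1) :
    Ef c (cosP s a f) T = (1 - Cf c T) * ∑ i ∈ s, a i / (c + f i ^ 2) := by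
  set b : ι → ℝ := fun i => a i / (c + f i ^ 2) with hb
  set p0 := ∑ i ∈ s, b i with hp0
  have hF : Continuous (cosP s a f) := by unfold cosP; fun_prop
  have e : (fun t => cosP s b f t - p0 * Cf c t) = Ef c (cosP s a f) := by
    apply Ef_unique (y' := fun t => cosP1 s b f t - p0 * (c * Sf c t)) hF
    · rw [cosP_zero, Cf_zero, ← hp0]; ring
    · rw [cosP1_zero, Sf_zero]; ring
    · intro t
      exact (hasDerivAt_cosP s b f t).sub ((hasDerivAt_Cf c t).const_mul p0)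
    · intro t
      refine ((hasDerivAt_cosP1 s a f c hq t).sub
        (((hasDerivAt_Sf c t).const_mul c).const_mul p0)).congr_deriv ?_
      rw [← hb]; ring
  rw [← e]
  beta_reduce
  rw [cosP_T s b f hf, ← hp0]
  ring

end h64

theorem Ef_F4 {T lam : ℝ} {n m : ℕ} (hT : 0 < T) (hm : 1 ≤ m) (hmn : m < n)
    (h1 : lam ^ 2 = 2 - om T n ^ 2) (h2 : 4 * lam ^ 2 = 2 - om T m ^ 2)
    (h45 : 4 * (n:ℝ) ≠ 5 * m) (hres : ∀ a : ℕ, (4 * lam) ^ 2 ≠ 2 - om T a ^ 2) :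
    ∃ q : ℝ, q ≠ 0 ∧ Ef ((4 * lam) ^ 2 - 2) (F4 T n m) T = (1 - Cf ((4 * lam) ^ 2 - 2) T) * q := by
  obtain ⟨hd, hs⟩ := h64.level4_sum_ne hm hmn (h64.hN h1 h2) (h64.hl h1) h45
  refine ⟨_, hs, ?_⟩
  have e : F4 T n m = cosP Finset.univ (a4 (n : ℝ) m) (fun i => f4 (n : ℝ) m i * (2 * π / T)) :=
    funext fun t => h64.F4_cosP T hm t
  rw [e]
  apply h64.Ef_cosP
  · intro i _
    exact hd i
  · intro i _
    obtain ⟨z, hz⟩ := h64.f4_int n m i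
    have : f4 (n : ℝ) m i * (2 * π / T) * T = z * (2 * π) := by
      rw [hz]; field_simp
    rw [this]
    exact cos_int_mul_two_pi z

end Phi4
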