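import Pool.Agent.Helper88.PhiI

/-! Exponential decay of the odd part. -/

set_option autoImplicit false

namespace Phi4

open Real Filter MeasureTheory intervalIntegral Set

namespace h64

open Phi4A in
theorem exp_decay_main {J : ℕ} (T : ℝ) (hT : 0 < T)
    (lam : Fin J → ℝ) (hlam : ∀ j, 0 ≤ lam j)
    (al be g : Fin J → ℝ → ℝ) (En dEn n : ℝ → ℝ)
    (hal : ∀ j x, HasDerivAt (al j) (be j x) x)
    (hbe : ∀ j x, HasDerivAt (be j) (lam j ^ 2 * al j x + g j x) x)
    (hEn0 : ∀ x, 0 ≤ En x)
    (hEn : ∀ x, HasDerivAt En (dEn x) x)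
    (hn0 : ∀ x, 0 ≤ n x)
    (hforce : ∃ K X0 : ℝ, 0 ≤ K ∧ ∀ x, X0 ≤ x → ∀ B : ℝ, 0 ≤ B →
      (∀ y, |y - x| ≤ T → n y ≤ B) →
      (∀ j, |g j x| ≤ K * B ^ 3) ∧ |dEn x| ≤ 2 * √(En x) * (K * B ^ 3))
    (hupper : ∃ K : ℝ, 0 ≤ K ∧ ∀ x, n x ≤ K * (√(En x) + ∑ j, (|al j x| + |be j x|)))
    (hlower : ∃ K : ℝ, 0 ≤ K ∧ ∀ x, √(En x) ≤ K * n x ∧
      ∀ j, |al j x| ≤ K * n x ∧ |be j x| ≤ K * n x)
    (hdecay : ∃ K : ℝ, 0 ≤ K ∧ ∀ x, 1 ≤ x → n x ≤ K / x ^ 2) :
    ∃ α0 : ℝ, 0 < α0 ∧ ∃ C X : ℝ, ∀ x, X ≤ x → n x ≤ C * exp (-α0 * x) := by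
  obtain ⟨Kf, X0, hKf, hforce⟩ := hforce
  obtain ⟨Ku, hKu, hupper⟩ := hupper
  obtain ⟨Kl, hKl, hlower⟩ := hlower
  obtain ⟨Kd, hKd, hdecay⟩ := hdecay
  have S : Sys T lam al be g En dEn n Kf X0 Ku Kl Kd :=
    { hT := hT, hlam := hlam, hal := hal, hbe := hbe, hEn0 := hEn0, hEn := hEn, hn0 := hn0,
      hKf := hKf, hforce := hforce, hKu := hKu, hupper := hupper, hKl := hKl,
      hlowE := fun x => (hlower x).1, hlowa := fun x j => ((hlower x).2 j).1,
      hlowb := fun x j => ((hlower x).2 j).2, hKd := hKd, hdecay := hdecay }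
  exact S.exp_decay

end h64

theorem WSol.nn_decay {T : ℝ} {w : ℝ → ℝ → ℝ} (W : WSol T w) (hT : 0 < T) :
    ∃ α C X : ℝ, 0 < α ∧ ∀ x, X ≤ x → nn T w x ≤ C * exp (-α * x) := by
  have O := W.osol hT
  have hsT : 0 < √T := sqrt_pos.2 hT
  set J := JJ T with hJdef
  have hJ : 2 < om T (J + 1) ^ 2 := lt_om_JJ hT
  have hJlow : ∀ j : Fin J, om T (j + 1) ^ 2 ≤ 2 := fun j => om_JJ_le hT (by omega)
  set lam : Fin J → ℝ := fun j => √(2 - om T (j + 1) ^ 2) with hlamdef
  have hlam2 : ∀ j, lam j ^ 2 = 2 - om T (j + 1) ^ 2 := fun j =>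
    sq_sqrt (by linarith [hJlow j])
  obtain ⟨Kt, hKt, hKt'⟩ := W.nrm_Dt_le hT J hJ
  -- continuity of slices
  have cga : ∀ x, Continuous (od w x) := fun x => cont_slice O.ca x
  have cgx : ∀ x, Continuous (Dx (od w) x) := fun x => cont_slice O.cx x
  have cgt : ∀ x, Continuous (Dt (od w) x) := fun x => cont_slice O.ct x
  have cgG : ∀ x, Continuous (srcA w x) := fun x => cont_slice O.cG x
  have chx : ∀ x, Continuous (hfx T J (od w) x) := fun x => cont_slice (O.c_hfx J) x
  have cht : ∀ x, Continuous (hft T J (od w) x) := fun x => cont_slice (O.c_hft J) x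
  have cP : ∀ c : Fin J → ℝ, Continuous (P T c) := fun c => by unfold P; fun_prop
  have cP1 : ∀ c : Fin J → ℝ, Continuous (P1 T c) := fun c => by unfold P1; fun_prop
  have nP : ∀ c : Fin J → ℝ, nrm T (P T c) ≤ √T * ∑ j, |c j| := fun c =>
    nrm_le_of_bound hT.le (Finset.sum_nonneg fun _ _ => abs_nonneg _) (cP c)
      (fun t _ _ => abs_P_le T c t)
  have nP1 : ∀ c : Fin J → ℝ, nrm T (P1 T c) ≤ √T * (om T J * ∑ j, |c j|) := fun c =>
    nrm_le_of_bound hT.le (mul_nonneg (om_nonneg hT J) (Finset.sum_nonneg fun _ _ => abs_nonneg _))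
      (cP1 c) (fun t _ _ => abs_P1_le hT c t)
  have bal : ∀ j x, |coef T (od w) j x| ≤ 2 * √T * nn T w x := by
    intro j x
    refine (abs_coef_le hT j (cga x)).trans ?_
    have h1 : nrm T (od w x) ≤ √T * (√T * nn T w x) :=
      nrm_le_of_bound hT.le (mul_nonneg hsT.le (add_nonneg (nrm_nonneg _ _) (nrm_nonneg _ _)))
        (cga x) (fun t h0 h1 => W.sup_le_nn hT x h0 h1)
    calc 2 / √T * nrm T (od w x) ≤ 2 / √T * (√T * (√T * nn T w x)) := by gcongr
      _ = 2 * √T * nn T w x := by field_simp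
  have bbe : ∀ j x, |coef T (Dx (od w)) j x| ≤ 2 / √T * nn T w x := by
    intro j x
    refine (abs_coef_le hT j (cgx x)).trans ?_
    apply mul_le_mul_of_nonneg_left _ (by positivity)
    unfold nn; linarith [nrm_nonneg T (Dt (od w) x)]
  have hnn0 : ∀ x, 0 ≤ nn T w x := fun x => add_nonneg (nrm_nonneg _ _) (nrm_nonneg _ _)
  have main := h64.exp_decay_main T hT lam (fun j => sqrt_nonneg _)
    (fun j => coef T (od w) (j + 1)) (fun j => coef T (Dx (od w)) (j + 1))
    (fun j => coef T (srcA w) (j + 1)) (En T J (od w))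
    (fun x => 2 * ∫ t in (0:ℝ)..T, hfx T J (od w) x t *
      (srcA w x t - P T (fun j : Fin J => coef T (srcA w) (j + 1) x) t))
    (nn T w)
    (fun j x => O.hal (j + 1) x)
    (fun j x => by rw [hlam2, ← O.ga_eq]; exact O.hbe (j + 1) x)
    (O.En_nonneg J hJ)
    (O.energy_deriv J)
    hnn0
    (by
      obtain ⟨K, X0, hK, h⟩ := W.srcA_bound hT
      refine ⟨2 * K + √T * (K + J * (2 * K)), X0, by positivity, ?_⟩
      intro x hx B hB hn
      have hG := h x hx B hB hn
      have hB3 : 0 ≤ B ^ 3 := by positivity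
      have hc : ∀ j : ℕ, |coef T (srcA w) j x| ≤ 2 * K * B ^ 3 := by
        intro j
        refine (abs_coef_le hT j (cgG x)).trans ?_
        have h1 : nrm T (srcA w x) ≤ √T * (K * B ^ 3) :=
          nrm_le_of_bound hT.le (by positivity) (cgG x) hG
        calc 2 / √T * nrm T (srcA w x) ≤ 2 / √T * (√T * (K * B ^ 3)) := by gcongr
          _ = 2 * K * B ^ 3 := by field_simp
      have hextra : 0 ≤ √T * (K + J * (2 * K)) * B ^ 3 := by positivity
      refine ⟨fun j => (hc _).trans (by nlinarith), ?_⟩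
      rw [abs_mul, abs_of_pos (by norm_num : (0:ℝ) < 2), mul_assoc]
      apply mul_le_mul_of_nonneg_left _ (by norm_num)
      refine (cs hT.le (chx x) ((cgG x).sub (cP _))).trans ?_
      have h2 : nrm T (fun t => srcA w x t - P T (fun j : Fin J => coef T (srcA w) (j + 1) x) t) ≤
          √T * (K + J * (2 * K)) * B ^ 3 := by
        have h3 := nrm_le_of_bound (M := (K + J * (2 * K)) * B ^ 3) hT.le (by positivity)
          ((cgG x).sub (cP (fun j : Fin J => coef T (srcA w) (j + 1) x))) (by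
            intro t ht0 htT
            simp only [Pi.sub_apply]
            refine (abs_sub _ _).trans ?_
            have h4 := abs_P_le T (fun j : Fin J => coef T (srcA w) (j + 1) x) t
            have h5 : ∑ j : Fin J, |coef T (srcA w) (j + 1) x| ≤ ∑ j : Fin J, 2 * K * B ^ 3 :=
              Finset.sum_le_sum fun j _ => hc _
            rw [Finset.sum_const, Finset.card_univ, Fintype.card_fin, nsmul_eq_mul] at h5
            have h6 := hG t ht0 htT
            nlinarith)
        rw [← mul_assoc] at h3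
        exact h3
      calc nrm T (hfx T J (od w) x) * _ ≤ √(En T J (od w) x) * (√T * (K + J * (2 * K)) * B ^ 3) := by
            apply mul_le_mul (W.nrm_Dx_le hT J hJ x) h2 (nrm_nonneg _ _) (sqrt_nonneg _)
        _ ≤ √(En T J (od w) x) * ((2 * K + √T * (K + J * (2 * K))) * B ^ 3) := by
            apply mul_le_mul_of_nonneg_left _ (sqrt_nonneg _)
            have : 0 ≤ 2 * K * B ^ 3 := by positivity
            nlinarith)
    (by
      refine ⟨1 + Kt + √T + √T * om T J, by have := om_nonneg hT J; positivity, fun x => ?_⟩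
      have e1 : nrm T (Dx (od w) x) ≤ nrm T (hfx T J (od w) x) +
          nrm T (P T (fun j : Fin J => coef T (Dx (od w)) (j + 1) x)) := by
        have := nrm_add_le hT.le (chx x) (cP (fun j : Fin J => coef T (Dx (od w)) (j + 1) x))
        refine le_trans (le_of_eq ?_) this
        congr 1; funext t; unfold hfx; ring
      have e2 : nrm T (Dt (od w) x) ≤ nrm T (hft T J (od w) x) +
          nrm T (P1 T (fun j : Fin J => coef T (od w) (j + 1) x)) := by
        have := nrm_add_le hT.le (cht x) (cP1 (fun j : Fin J => coef T (od w) (j + 1) x))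
        refine le_trans (le_of_eq ?_) this
        congr 1; funext t; unfold hft; ring
      have e3 := nP (fun j : Fin J => coef T (Dx (od w)) (j + 1) x)
      have e4 := nP1 (fun j : Fin J => coef T (od w) (j + 1) x)
      have e5 := W.nrm_Dx_le hT J hJ x
      have e6 := hKt' x
      have e7 : ∑ j : Fin J, (|coef T (od w) (j + 1) x| + |coef T (Dx (od w)) (j + 1) x|) =
        ∑ j : Fin J, |coef T (od w) (j + 1) x| + ∑ j : Fin J, |coef T (Dx (od w)) (j + 1) x| :=
        Finset.sum_add_distrib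
      rw [e7]
      have n1 : 0 ≤ ∑ j : Fin J, |coef T (od w) (j + 1) x| := Finset.sum_nonneg fun _ _ => abs_nonneg _
      have n2 : 0 ≤ ∑ j : Fin J, |coef T (Dx (od w)) (j + 1) x| :=
        Finset.sum_nonneg fun _ _ => abs_nonneg _
      have n3 : 0 ≤ √(En T J (od w) x) := sqrt_nonneg _
      have n4 : 0 ≤ om T J := om_nonneg hT J
      set A := ∑ j : Fin J, |coef T (od w) (j + 1) x|
      set B := ∑ j : Fin J, |coef T (Dx (od w)) (j + 1) x|
      set E := √(En T J (od w) x)
      have m1 : 0 ≤ √T * E := by positivity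
      have m2 : 0 ≤ √T * A := by positivity
      have m3 : 0 ≤ √T * om T J * E := by positivity
      have m4 : 0 ≤ √T * om T J * B := by positivity
      have m5 : 0 ≤ Kt * A := by positivity
      have m6 : 0 ≤ Kt * B := by positivity
      unfold nn
      nlinarith)
    (by
      refine ⟨1 + 1 + √T * (J * (2 / √T)) + √T * (om T J * (J * (2 * √T))) + 2 * √T + 2 / √T,
        by have := om_nonneg hT J; positivity, fun x => ⟨?_, fun j => ⟨?_, ?_⟩⟩⟩
      · have e0 : √(En T J (od w) x) ≤ nrm T (hfx T J (od w) x) + nrm T (hft T J (od w) x) := by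
          apply sqrt_le_iff.2
          refine ⟨add_nonneg (nrm_nonneg _ _) (nrm_nonneg _ _), ?_⟩
          refine (O.En_le J x).trans ?_
          nlinarith [mul_nonneg (nrm_nonneg T (hfx T J (od w) x)) (nrm_nonneg T (hft T J (od w) x))]
        have e1 : nrm T (hfx T J (od w) x) ≤ nrm T (Dx (od w) x) +
            nrm T (P T (fun j : Fin J => coef T (Dx (od w)) (j + 1) x)) :=
          nrm_sub_le hT.le (cgx x) (cP _)
        have e2 : nrm T (hft T J (od w) x) ≤ nrm T (Dt (od w) x) +
            nrm T (P1 T (fun j : Fin J => coef T (od w) (j + 1) x)) :=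
          nrm_sub_le hT.le (cgt x) (cP1 _)
        have e3 := nP (fun j : Fin J => coef T (Dx (od w)) (j + 1) x)
        have e4 := nP1 (fun j : Fin J => coef T (od w) (j + 1) x)
        have e5 : ∑ j : Fin J, |coef T (od w) (j + 1) x| ≤ J * (2 * √T * nn T w x) := by
          refine (Finset.sum_le_sum fun j _ => bal _ x).trans ?_
          simp
        have e6 : ∑ j : Fin J, |coef T (Dx (od w)) (j + 1) x| ≤ J * (2 / √T * nn T w x) := by
          refine (Finset.sum_le_sum fun j _ => bbe _ x).trans ?_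
          simp
        have e7 : √T * (om T J * ∑ j : Fin J, |coef T (od w) (j + 1) x|) ≤
            √T * (om T J * (J * (2 * √T * nn T w x))) := by
          have := om_nonneg hT J
          gcongr
        have e8 : √T * ∑ j : Fin J, |coef T (Dx (od w)) (j + 1) x| ≤
            √T * (J * (2 / √T * nn T w x)) := by gcongr
        have n0 := hnn0 x
        have n1 : 0 ≤ √T * nn T w x := by positivity
        have n2 : 0 ≤ 2 / √T * nn T w x := by positivity
        have n3 : nn T w x = nrm T (Dx (od w) x) + nrm T (Dt (od w) x) := rfl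
        nlinarith
      · have n0 := hnn0 x
        have := om_nonneg hT J
        have n1 : 0 ≤ √T * (J * (2 / √T)) * nn T w x := by positivity
        have n2 : 0 ≤ √T * (om T J * (J * (2 * √T))) * nn T w x := by positivity
        have n3 : 0 ≤ 2 / √T * nn T w x := by positivity
        have := bal (j + 1) x
        nlinarith
      · have n0 := hnn0 x
        have := om_nonneg hT J
        have n1 : 0 ≤ √T * (J * (2 / √T)) * nn T w x := by positivity
        have n2 : 0 ≤ √T * (om T J * (J * (2 * √T))) * nn T w x := by positivity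
        have n3 : 0 ≤ √T * nn T w x := by positivity
        have := bbe (j + 1) x
        nlinarith)
    (by
      obtain ⟨C, hC, h⟩ := W.decay_parts
      refine ⟨2 * (√T * C), by positivity, fun x hx => ?_⟩
      have h1 := nrm_le_of_bound hT.le (by positivity : 0 ≤ C / x ^ 2) (cgx x)
        (fun t _ _ => (h x hx t).2.2.1)
      have h2 := nrm_le_of_bound hT.le (by positivity : 0 ≤ C / x ^ 2) (cgt x)
        (fun t _ _ => (h x hx t).2.2.2)
      unfold nn
      have : 2 * (√T * C) / x ^ 2 = √T * (C / x ^ 2) + √T * (C / x ^ 2) := by ring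
      linarith)
  obtain ⟨α, hα, C, X, h⟩ := main
  exact ⟨α, C, X, hα, h⟩

end Phi4
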