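import Mathlib

/-! Independence of exponentials. -/

set_option autoImplicit false

namespace Phi4

open Real Filter MeasureTheory intervalIntegral Set

theorem exp_indep {ι : Type} (K : Finset ι) (κ a : ι → ℝ) (σ C X : ℝ)
    (h : ∀ x, X ≤ x → |∑ i ∈ K, a i * exp (-κ i * x)| ≤ C * exp (-σ * x)) (k : ℝ) (hk : k < σ) :
    ∑ i ∈ K.filter (fun i => κ i = k), a i = 0 := by
  classical
  set A : ℝ → ℝ := fun k => ∑ i ∈ K.filter (fun i => κ i = k), a i with hA
  change A k = 0
  by_contra hne
  -- the set of bad rates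
  set bad := (K.image κ).filter (fun k => k < σ ∧ A k ≠ 0) with hbad
  have hkmem : k ∈ bad := by
    rw [hbad, Finset.mem_filter]
    refine ⟨?_, hk, hne⟩
    by_contra hnot
    apply hne
    change ∑ i ∈ K.filter (fun i => κ i = k), a i = 0
    have : K.filter (fun i => κ i = k) = ∅ := by
      rw [Finset.filter_eq_empty_iff]
      intro i hi hik
      apply hnot
      rw [← hik]
      exact Finset.mem_image_of_mem κ hi
    rw [this, Finset.sum_empty]
  have hne' : bad.Nonempty := ⟨k, hkmem⟩
  set k0 := bad.min' hne' with hk0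
  have hk0mem : k0 ∈ bad := Finset.min'_mem _ _
  obtain ⟨-, hk0σ, hk0A⟩ := Finset.mem_filter.1 hk0mem
  have hmin : ∀ l ∈ K.image κ, l < k0 → A l = 0 := by
    intro l hl hlk
    by_contra hcon
    have : l ∈ bad := Finset.mem_filter.2 ⟨hl, hlk.trans hk0σ, hcon⟩
    exact absurd (Finset.min'_le _ _ this) (not_le.2 hlk)
  have hsum : ∀ x : ℝ, ∑ i ∈ K, a i * exp (-κ i * x) = ∑ l ∈ K.image κ, A l * exp (-l * x) := by
    intro x
    rw [← Finset.sum_fiberwise_of_maps_to (fun i hi => Finset.mem_image_of_mem κ hi)]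
    apply Finset.sum_congr rfl
    intro l _
    rw [hA]
    beta_reduce
    rw [Finset.sum_mul]
    apply Finset.sum_congr rfl
    intro i hi
    rw [(Finset.mem_filter.1 hi).2]
  have hlim1 : Tendsto (fun x : ℝ => ∑ l ∈ K.image κ, A l * exp (-(l - k0) * x)) atTop
      (nhds (∑ l ∈ K.image κ, if l = k0 then A k0 else 0)) := by
    apply tendsto_finsetSum
    intro l hl
    rcases lt_trichotomy l k0 with h1 | h1 | h1
    · rw [if_neg h1.ne, hmin l hl h1]
      simp
    · rw [if_pos h1, h1]
      simp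
    · rw [if_neg h1.ne']
      have h2 : Tendsto (fun x : ℝ => exp (-((l - k0) * x))) atTop (nhds 0) :=
        tendsto_exp_neg_atTop_nhds_zero.comp (tendsto_id.const_mul_atTop (sub_pos.2 h1))
      have h3 := h2.const_mul (A l)
      rw [mul_zero] at h3
      refine h3.congr fun x => ?_
      rw [neg_mul]
  have hval : (∑ l ∈ K.image κ, if l = k0 then A k0 else 0) = A k0 := by
    rw [Finset.sum_ite_eq' (K.image κ) k0]
    rw [if_pos (Finset.mem_filter.1 hk0mem).1]
  rw [hval] at hlim1
  have hlim2 : Tendsto (fun x : ℝ => ∑ l ∈ K.image κ, A l * exp (-(l - k0) * x)) atTop (nhds 0) := by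
    have h2 : Tendsto (fun x : ℝ => exp (-((σ - k0) * x))) atTop (nhds 0) :=
      tendsto_exp_neg_atTop_nhds_zero.comp (tendsto_id.const_mul_atTop (sub_pos.2 hk0σ))
    have h3 := h2.const_mul C
    rw [mul_zero] at h3
    apply squeeze_zero_norm' _ h3
    filter_upwards [eventually_ge_atTop X] with x hx
    have h4 := h x hx
    rw [hsum] at h4
    have h5 : ∑ l ∈ K.image κ, A l * exp (-(l - k0) * x) =
        (∑ l ∈ K.image κ, A l * exp (-l * x)) * exp (k0 * x) := by
      rw [Finset.sum_mul]
      apply Finset.sum_congr rfl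
      intro l _
      rw [mul_assoc, ← exp_add]
      congr 2
      ring
    rw [h5, Real.norm_eq_abs, abs_mul, abs_of_pos (exp_pos _)]
    calc |∑ l ∈ K.image κ, A l * exp (-l * x)| * exp (k0 * x) ≤ (C * exp (-σ * x)) * exp (k0 * x) :=
          mul_le_mul_of_nonneg_right h4 (exp_pos _).le
      _ = C * exp (-((σ - k0) * x)) := by
          rw [mul_assoc, ← exp_add]
          congr 2
          ring
  exact hk0A (tendsto_nhds_unique hlim1 hlim2)

end Phi4
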