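import Pool.Agent.Helper58.Phi4.Ode
import Pool.Agent.Helper64.Phi4.ExpIndep

/-! Expansion of the even part, by the cone estimate. -/

set_option autoImplicit false

namespace Phi4

open Real Filter MeasureTheory intervalIntegral Set

namespace h64

/-- a function with two derivatives, the second one continuous, is `C^2` -/
theorem contDiff_two_of {f f1 f2 : ℝ → ℝ} (h1 : ∀ t, HasDerivAt f (f1 t) t)
    (h2 : ∀ t, HasDerivAt f1 (f2 t) t) (hc : Continuous f2) : ContDiff ℝ 2 f := by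
  have d1 : deriv f = f1 := funext fun t => (h1 t).deriv
  have d2 : deriv f1 = f2 := funext fun t => (h2 t).deriv
  have c1 : ContDiff ℝ 1 f1 := by
    rw [show (1 : WithTop ℕ∞) = 0 + 1 from rfl, contDiff_succ_iff_deriv]
    refine ⟨fun t => (h2 t).differentiableAt, by simp, ?_⟩
    rw [d2]
    exact contDiff_zero.2 hc
  rw [show (2 : WithTop ℕ∞) = 1 + 1 from rfl, contDiff_succ_iff_deriv]
  refine ⟨fun t => (h1 t).differentiableAt, by simp, ?_⟩
  rw [d1]
  exact c1

theorem hasDerivAt_expk (k x : ℝ) : HasDerivAt (fun y => exp (-k * y)) (-k * exp (-k * x)) x := by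
  have h1 : HasDerivAt (fun y : ℝ => -k * y) (-k) x := by simpa using (hasDerivAt_id x).const_mul (-k)
  exact h1.exp.congr_deriv (by ring)

end h64

theorem even_expand {T : ℝ} (hT : 0 < T) {e S : ℝ → ℝ → ℝ}
    (he : ContDiff ℝ 2 (fun p : ℝ × ℝ => e p.1 p.2))
    (eqn : ∀ x t, Dx (Dx e) x t = Dt (Dt e) x t + 2 * e x t + S x t)
    (e0 : ∀ x, e x 0 = 0) (e1 : ∀ x, Dt e x 0 = 0)
    {ι : Type} (K : Finset ι) (κ : ι → ℝ) (F : ι → ℝ → ℝ) (hF : ∀ i, Continuous (F i)) (σ : ℝ)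
    (hS : EB T σ (fun x t => S x t - ∑ i ∈ K, F i t * exp (-κ i * x))) :
    EB T σ (fun x t => e x t - ∑ i ∈ K, Ef (κ i ^ 2 - 2) (F i) t * exp (-κ i * x)) := by
  obtain ⟨C, X, hC, -, hS⟩ := hS.nonneg_const
  set E : ι → ℝ → ℝ := fun i => Ef (κ i ^ 2 - 2) (F i) with hE
  set E1 : ι → ℝ → ℝ := fun i => Ef1 (κ i ^ 2 - 2) (F i) with hE1
  have dE : ∀ i t, HasDerivAt (E i) (E1 i t) t := fun i t => hasDerivAt_Ef _ (hF i) t
  have dE1 : ∀ i t, HasDerivAt (E1 i) ((κ i ^ 2 - 2) * E i t - F i t) t :=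
    fun i t => hasDerivAt_Ef1 _ (hF i) t
  have cE : ∀ i, Continuous (E i) := fun i => continuous_iff_continuousAt.2 fun t => (dE i t).continuousAt
  have sE : ∀ i, ContDiff ℝ 2 (E i) := fun i => h64.contDiff_two_of (dE i) (dE1 i)
    (((cE i).const_mul _).sub (hF i))
  set s : ℝ → ℝ → ℝ := fun x t => e x t - ∑ i ∈ K, E i t * exp (-κ i * x) with hs
  have ss : ContDiff ℝ 2 (fun p : ℝ × ℝ => s p.1 p.2) := by
    rw [hs]
    apply he.sub
    apply ContDiff.sum
    intro i _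
    apply ContDiff.mul
    · exact (sE i).comp contDiff_snd
    · exact (contDiff_exp.comp (contDiff_const.mul contDiff_fst))
  -- derivatives
  have hx1 : ∀ x t, HasDerivAt (fun y => s y t)
      (Dx e x t - ∑ i ∈ K, E i t * (-κ i * exp (-κ i * x))) x := by
    intro x t
    refine (hasDerivAt_x (c2_one he) x t).sub ?_
    apply HasDerivAt.fun_sum
    intro i _
    exact (h64.hasDerivAt_expk (κ i) x).const_mul _
  have hDx : Dx s = fun x t => Dx e x t - ∑ i ∈ K, E i t * (-κ i * exp (-κ i * x)) := by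
    funext x t; exact (hx1 x t).deriv
  have hDxx : ∀ x t, Dx (Dx s) x t = Dx (Dx e) x t - ∑ i ∈ K, E i t * (κ i ^ 2 * exp (-κ i * x)) := by
    intro x t
    rw [hDx]
    have : HasDerivAt (fun y => Dx e y t - ∑ i ∈ K, E i t * (-κ i * exp (-κ i * y)))
        (Dx (Dx e) x t - ∑ i ∈ K, E i t * (κ i ^ 2 * exp (-κ i * x))) x := by
      refine (hasDerivAt_x (c2_Dx he) x t).sub ?_
      apply HasDerivAt.fun_sum
      intro i _
      exact (((h64.hasDerivAt_expk (κ i) x).const_mul (-κ i)).const_mul (E i t)).congr_deriv (by ring)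
    exact this.deriv
  have ht1 : ∀ x t, HasDerivAt (fun r => s x r)
      (Dt e x t - ∑ i ∈ K, E1 i t * exp (-κ i * x)) t := by
    intro x t
    refine (hasDerivAt_t (c2_one he) x t).sub ?_
    apply HasDerivAt.fun_sum
    intro i _
    exact (dE i t).mul_const _
  have hDt : Dt s = fun x t => Dt e x t - ∑ i ∈ K, E1 i t * exp (-κ i * x) := by
    funext x t; exact (ht1 x t).deriv
  have hDtt : ∀ x t, Dt (Dt s) x t = Dt (Dt e) x t -
      ∑ i ∈ K, ((κ i ^ 2 - 2) * E i t - F i t) * exp (-κ i * x) := by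
    intro x t
    rw [hDt]
    have : HasDerivAt (fun r => Dt e x r - ∑ i ∈ K, E1 i r * exp (-κ i * x))
        (Dt (Dt e) x t - ∑ i ∈ K, ((κ i ^ 2 - 2) * E i t - F i t) * exp (-κ i * x)) t := by
      refine (hasDerivAt_t (c2_Dt he) x t).sub ?_
      apply HasDerivAt.fun_sum
      intro i _
      exact (dE1 i t).mul_const _
    exact this.deriv
  have s0 : ∀ x, s x 0 = 0 := by
    intro x
    rw [hs]
    beta_reduce
    rw [e0]
    have : ∑ i ∈ K, E i 0 * exp (-κ i * x) = 0 := by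
      apply Finset.sum_eq_zero
      intro i _
      rw [hE]; beta_reduce
      rw [Ef_zero, zero_mul]
    rw [this, sub_zero]
  have s1 : ∀ x, Dt s x 0 = 0 := by
    intro x
    rw [hDt]
    beta_reduce
    rw [e1]
    have : ∑ i ∈ K, E1 i 0 * exp (-κ i * x) = 0 := by
      apply Finset.sum_eq_zero
      intro i _
      rw [hE1]; beta_reduce
      rw [Ef1_zero, zero_mul]
    rw [this, sub_zero]
  have heq : ∀ x t, Dx (Dx s) x t - Dt (Dt s) x t =
      2 * s x t + (S x t - ∑ i ∈ K, F i t * exp (-κ i * x)) := by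
    intro x t
    rw [hDxx, hDtt, eqn, hs]
    beta_reduce
    have : ∑ i ∈ K, E i t * (κ i ^ 2 * exp (-κ i * x)) =
        ∑ i ∈ K, ((κ i ^ 2 - 2) * E i t - F i t) * exp (-κ i * x) +
          2 * (∑ i ∈ K, E i t * exp (-κ i * x)) + ∑ i ∈ K, F i t * exp (-κ i * x) := by
      rw [Finset.mul_sum, ← Finset.sum_add_distrib, ← Finset.sum_add_distrib]
      apply Finset.sum_congr rfl
      intro i _
      ring
    rw [this]; ring
  refine ⟨(4 * T + 3 * T ^ 2 * exp (3 * T)) * (C * exp (|σ| * T) / 4), X + T, fun x hx t h0 h1 => ?_⟩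
  have hb : (√(C * exp (|σ| * T) / 4 * exp (-σ * x))) ^ 2 = C * exp (|σ| * T) / 4 * exp (-σ * x) :=
    sq_sqrt (by positivity)
  have key := cone_estimate (b := √(C * exp (|σ| * T) / 4 * exp (-σ * x))) hT ss s0 s1 x (by
    intro y τ hτ hy
    have hy' := abs_le.1 hy
    have hyX : X ≤ y := by linarith [hy'.1]
    have hτT : τ ≤ T := by linarith [abs_nonneg (y - x)]
    have h2 := hS y hyX τ hτ hτT
    have h3 : exp (-σ * y) ≤ exp (|σ| * T) * exp (-σ * x) := by
      rw [← exp_add, exp_le_exp]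
      have h4 : -σ * (y - x) ≤ |σ| * T := by
        calc -σ * (y - x) ≤ |-σ * (y - x)| := le_abs_self _
          _ = |σ| * |y - x| := by rw [abs_mul, abs_neg]
          _ ≤ |σ| * T := by
              apply mul_le_mul_of_nonneg_left _ (abs_nonneg _)
              linarith
      linarith
    rw [heq, hb]
    have h5 : |2 * s y τ| = 2 * |s y τ| := by rw [abs_mul]; norm_num
    have h6 := abs_add_le (2 * s y τ) (S y τ - ∑ i ∈ K, F i τ * exp (-κ i * y))
    have h7 : C * exp (-σ * y) ≤ C * (exp (|σ| * T) * exp (-σ * x)) := mul_le_mul_of_nonneg_left h3 hC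
    have h8 := abs_nonneg (s y τ)
    rw [h5] at h6
    linarith) t h0 h1
  have h9 := key.1
  rw [hb] at h9
  calc |s x t| ≤ _ := h9
    _ = (4 * T + 3 * T ^ 2 * exp (3 * T)) * (C * exp (|σ| * T) / 4) * exp (-σ * x) := by ring

/-- with `e x T = 0`: the coefficient at every rate below `σ` vanishes at `T` -/
theorem even_cond {T : ℝ} (hT : 0 < T) {e S : ℝ → ℝ → ℝ}
    (he : ContDiff ℝ 2 (fun p : ℝ × ℝ => e p.1 p.2))
    (eqn : ∀ x t, Dx (Dx e) x t = Dt (Dt e) x t + 2 * e x t + S x t)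
    (e0 : ∀ x, e x 0 = 0) (e1 : ∀ x, Dt e x 0 = 0) (eT : ∀ x, e x T = 0)
    {ι : Type} (K : Finset ι) (κ : ι → ℝ) (F : ι → ℝ → ℝ) (hF : ∀ i, Continuous (F i)) (σ : ℝ)
    (hS : EB T σ (fun x t => S x t - ∑ i ∈ K, F i t * exp (-κ i * x))) (k : ℝ) (hk : k < σ) :
    ∑ i ∈ K.filter (fun i => κ i = k), Ef (k ^ 2 - 2) (F i) T = 0 := by
  obtain ⟨C, X, h⟩ := even_expand hT he eqn e0 e1 K κ F hF σ hS
  have h1 := exp_indep K κ (fun i => Ef (κ i ^ 2 - 2) (F i) T) σ C X (by
    intro x hx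
    have h2 := h x hx T hT.le le_rfl
    beta_reduce at h2
    rw [eT, zero_sub, abs_neg] at h2
    exact h2) k hk
  rw [← h1]
  apply Finset.sum_congr rfl
  intro i hi
  rw [(Finset.mem_filter.1 hi).2]

end Phi4
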