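import Pool.Agent.Helper58.Phi4.Ode
import Pool.Agent.Helper64.Phi4.Prof

/-! Order 2 of the even part as a solution of the level equation. -/

set_option autoImplicit false

namespace Phi4

open Real Filter MeasureTheory intervalIntegral Set

theorem E2_eq {T lam : ℝ} {n m : ℕ} (hT : 0 < T) (hm : 1 ≤ m) (hmn : m < n)
    (h1 : lam ^ 2 = 2 - om T n ^ 2) (h2 : 4 * lam ^ 2 = 2 - om T m ^ 2) :
    E2 T n m = Ef ((2 * lam) ^ 2 - 2) (fun s => 3 * (sin (om T n * s) * sin (om T n * s))) := by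
  have hm0 : (m : ℝ) ≠ 0 := by
    have : (0 : ℝ) < m := by exact_mod_cast hm
    exact this.ne'
  have e : E2 T n m = E2f 1 n m (2 * π / T) := funext fun t => h64.E2_E2f T n m t
  rw [e]
  apply Ef_unique (y' := E2f1 1 n m (2 * π / T)) (by fun_prop)
  · exact E2f_zero 1 n _ hm0
  · exact E2f1_zero 1 n m _
  · exact fun t => hasDerivAt_E2f 1 n m _ t
  · intro t
    refine (hasDerivAt_E2f1 1 hm0 (h64.hN h1 h2) (h64.hl h1) t).congr_deriv ?_
    rw [← h64.om_eq]
    ring

end Phi4
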